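import Pool.Agent.Helper37.BP.Defs2
import Pool.Graph.R_seed8.BAPp.Khin

/-! Part EC of the second blueprint for MP_6f6997_an: the norm bound for one relation. -/

open MeasureTheory
open scoped ENNReal NNReal

set_option maxSynthPendingDepth 3

namespace Pool.Agent.Helper34.BAP

open Pool.Agent.BAPp (sgn)
open Pool.Agent.Helper37.BP

theorem sgn_sq (b : Bool) : sgn b * sgn b = 1 := by
  cases b <;> norm_num [sgn]

theorem abs_sgn (b : Bool) : |sgn b| = 1 := by
  cases b <;> norm_num [sgn]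

theorem m_pos (t : Tree) (k : ℕ) : 0 < (t.m k : ℝ) := by
  have h1 : 0 < t.m k := by
    rw [← t.A_card k (fun _ => false)]
    exact Finset.card_pos.2 ⟨_, t.A_self k _⟩
  exact_mod_cast h1

theorem A_symm (t : Tree) (k : ℕ) {h h' : Sg k} (hh : h' ∈ t.A k h) : h ∈ t.A k h' := by
  rw [t.A_eq k h h' hh]; exact t.A_self k h

theorem B_symm (t : Tree) (k : ℕ) {h h' : Sg k} (hh : h' ∈ t.B k h) : h ∈ t.B k h' := by
  rw [t.B_eq k h h' hh]; exact t.B_self k h

theorem coe_sum_lp {α ι : Type} {E : α → Type} [∀ i, NormedAddCommGroup (E i)] {p : ℝ≥0∞}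
    (s : Finset ι) (f : ι → lp E p) (x : α) :
    (∑ i ∈ s, f i : lp E p) x = ∑ i ∈ s, f i x := by
  rw [lp.coeFn_sum]
  simp

theorem eL_coord_ne (t : Tree) (r : ℝ) (k : ℕ) (h : Sg k)
    (γ : Ix) (hγ : γ.1 ≠ k) : (eL t r k h) γ = 0 := by
  classical
  unfold eL
  rw [coe_sum_lp]
  refine Finset.sum_eq_zero fun h0 _ => ?_
  refine lp.single_apply_ne _ _ _ ?_
  rintro rfl
  exact hγ rfl

theorem norm_eL_coord (t : Tree) (r : ℝ) (k : ℕ) (h h0 : Sg k) :
    ‖(eL t r k h) ⟨k, h0⟩‖ ≤ if h0 ∈ t.A k h then (t.m k : ℝ) ^ (-(1 / r)) else 0 := by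
  classical
  unfold eL
  rw [coe_sum_lp]
  have hne : ∀ h1 ∈ t.A k h, h1 ≠ h0 →
      (lp.single (E := fun γ : Ix => PiLp 1 (fun _ : Sg γ.1 => ℝ)) (ENNReal.ofReal r)
        (⟨k, h1⟩ : Ix) (WithLp.toLp 1 (Pi.single h ((t.m k : ℝ) ^ (-(1 / r)))))) ⟨k, h0⟩ = 0 := by
    intro h1 _ hne
    refine lp.single_apply_ne _ _ _ ?_
    intro he
    apply hne
    have := (Sigma.mk.inj_iff.1 he).2
    exact (eq_of_heq this).symm
  split_ifs with hin
  · rw [Finset.sum_eq_single_of_mem h0 hin hne, lp.single_apply_self]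
    rw [PiLp.norm_eq_of_L1]
    rw [Finset.sum_eq_single h]
    · simp only [Pi.single_eq_same]
      rw [Real.norm_eq_abs, abs_of_nonneg (by positivity)]
    · intro j _ hj
      simp [Pi.single_eq_of_ne hj]
    · intro h; exact absurd (Finset.mem_univ _) h
  · rw [Finset.sum_eq_zero]
    · simp
    · intro h1 hh1
      exact hne h1 hh1 (by rintro rfl; exact hin hh1)

/-- bound of the norm of an element of `Lam r` supported on one level -/
theorem norm_level_le (r : ℝ) (hr : 1 ≤ r) [Fact (1 ≤ ENNReal.ofReal r)] (k' : ℕ)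
    (F : Lam r) (G : Sg k' → ℝ) (hG : ∀ h0, ‖F ⟨k', h0⟩‖ ≤ G h0)
    (h0 : ∀ γ : Ix, γ.1 ≠ k' → F γ = 0) : ‖F‖ ^ r ≤ ∑ h0, G h0 ^ r := by
  have hr0 : 0 < r := by linarith
  have htr : (ENNReal.ofReal r).toReal = r := ENNReal.toReal_ofReal hr0.le
  have h1 := lp.norm_rpow_eq_tsum (p := ENNReal.ofReal r) (by rw [htr]; exact hr0) F
  rw [htr] at h1
  rw [h1]
  have hsupp : Function.support (fun γ : Ix => ‖F γ‖ ^ r) ⊆
      Set.range (fun g : Sg k' => (⟨k', g⟩ : Ix)) := by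
    intro γ hγ
    by_contra hc
    apply hγ
    have hk : γ.1 ≠ k' := by
      rintro rfl
      exact hc ⟨γ.2, rfl⟩
    simp only [h0 γ hk, norm_zero, Real.zero_rpow hr0.ne']
  have hinj : Function.Injective (fun g : Sg k' => (⟨k', g⟩ : Ix)) := by
    intro a b hab
    simpa using hab
  rw [← hinj.tsum_eq hsupp, tsum_fintype]
  exact Finset.sum_le_sum fun g _ => Real.rpow_le_rpow (norm_nonneg _) (hG g) hr0.le

theorem sum_sgn_mul {ι : Type} [Fintype ι] [DecidableEq ι] (i j : ι) :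
    ∑ θ : ι → Bool, sgn (θ i) * sgn (θ j) = if i = j then (2 : ℝ) ^ Fintype.card ι else 0 := by
  split_ifs with h
  · subst h
    simp [sgn_sq]
  · have hinv : Function.Involutive (fun θ : ι → Bool => Function.update θ i (!θ i)) := by
      intro θ
      funext x
      by_cases hx : x = i
      · subst hx; simp
      · simp [Function.update_of_ne hx]
    have h1 : ∑ θ : ι → Bool, sgn (θ i) * sgn (θ j) =
        ∑ θ : ι → Bool, sgn ((Function.Involutive.toPerm _ hinv θ) i) *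
          sgn ((Function.Involutive.toPerm _ hinv θ) j) :=
      (Equiv.sum_comp (Function.Involutive.toPerm _ hinv)
        (fun θ : ι → Bool => sgn (θ i) * sgn (θ j))).symm
    have h2 : ∀ θ : ι → Bool, sgn ((Function.Involutive.toPerm _ hinv θ) i) *
        sgn ((Function.Involutive.toPerm _ hinv θ) j) = -(sgn (θ i) * sgn (θ j)) := by
      intro θ
      have e1 : (Function.Involutive.toPerm _ hinv θ) i = !θ i := by
        simp [Function.Involutive.toPerm]
      have e2 : (Function.Involutive.toPerm _ hinv θ) j = θ j := by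
        simp [Function.Involutive.toPerm, Function.update_of_ne (Ne.symm h)]
      rw [e1, e2]
      cases θ i <;> cases θ j <;> norm_num [sgn]
    rw [Finset.sum_congr rfl (fun θ _ => h2 θ), Finset.sum_neg_distrib] at h1
    linarith

theorem sum_sq_sgn {ι : Type} [Fintype ι] [DecidableEq ι] (B : Finset ι) (s : ι → ℝ)
    (hs : ∀ j, |s j| ≤ 1) :
    ∑ θ : ι → Bool, |∑ j ∈ B, s j * sgn (θ j)| ^ 2 ≤ 2 ^ Fintype.card ι * (B.card : ℝ) := by
  have h1 : ∀ θ : ι → Bool, |∑ j ∈ B, s j * sgn (θ j)| ^ 2 =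
      ∑ i ∈ B, ∑ j ∈ B, s i * s j * (sgn (θ i) * sgn (θ j)) := by
    intro θ
    rw [sq_abs, sq, Finset.sum_mul_sum]
    refine Finset.sum_congr rfl fun i _ => Finset.sum_congr rfl fun j _ => ?_
    ring
  rw [Finset.sum_congr rfl (fun θ _ => h1 θ), Finset.sum_comm]
  have h2 : ∀ i ∈ B, ∑ θ : ι → Bool, ∑ j ∈ B, s i * s j * (sgn (θ i) * sgn (θ j)) =
      s i * s i * 2 ^ Fintype.card ι := by
    intro i hi
    rw [Finset.sum_comm]
    simp_rw [← Finset.mul_sum, sum_sgn_mul]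
    rw [Finset.sum_eq_single_of_mem i hi]
    · simp
    · intro j _ hj
      rw [if_neg (Ne.symm hj), mul_zero]
  rw [Finset.sum_congr rfl h2]
  calc ∑ i ∈ B, s i * s i * 2 ^ Fintype.card ι ≤ ∑ i ∈ B, (1 : ℝ) * 2 ^ Fintype.card ι := by
        refine Finset.sum_le_sum fun i _ => mul_le_mul_of_nonneg_right ?_ (by positivity)
        have := hs i
        rw [← abs_mul_abs_self]
        nlinarith [abs_nonneg (s i)]
    _ = 2 ^ Fintype.card ι * (B.card : ℝ) := by
        rw [Finset.sum_const, nsmul_eq_mul]; ring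

/-- Hölder: comparison of exponents `q ≤ 2`. -/
theorem lq_le_l2 {ι : Type} (S : Finset ι) (X : ι → ℝ) (q b : ℝ) (hq0 : 0 < q) (hq2 : q ≤ 2)
    (hb : 0 ≤ b) (h : ∑ x ∈ S, |X x| ^ 2 ≤ S.card * b) :
    (∑ x ∈ S, |X x| ^ q) ^ (1 / q) ≤ (S.card : ℝ) ^ (1 / q) * b ^ (1 / 2 : ℝ) := by
  have h1 := Real.rpow_sum_le_const_mul_sum_rpow S (fun x => |X x| ^ q) (p := 2 / q)
    (by rw [le_div_iff₀ hq0]; linarith)
  have e1 : ∀ x, |(|X x| ^ q)| = |X x| ^ q := fun x => abs_of_nonneg (by positivity)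
  simp only [e1] at h1
  have e2 : ∀ x, (|X x| ^ q) ^ (2 / q) = |X x| ^ 2 := by
    intro x
    rw [← Real.rpow_mul (abs_nonneg _)]
    have : q * (2 / q) = (2 : ℕ) := by field_simp; norm_num
    rw [this, Real.rpow_natCast]
  simp only [e2] at h1
  have hs0 : 0 ≤ ∑ x ∈ S, |X x| ^ q := Finset.sum_nonneg fun x _ => by positivity
  have hc0 : (0 : ℝ) ≤ S.card := by positivity
  have h2 : (∑ x ∈ S, |X x| ^ q) ^ (2 / q) ≤ (S.card : ℝ) ^ (2 / q) * b := by
    calc (∑ x ∈ S, |X x| ^ q) ^ (2 / q) ≤ (S.card : ℝ) ^ (2 / q - 1) * ∑ x ∈ S, |X x| ^ 2 := h1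
      _ ≤ (S.card : ℝ) ^ (2 / q - 1) * (S.card * b) :=
          mul_le_mul_of_nonneg_left h (by positivity)
      _ = (S.card : ℝ) ^ (2 / q) * b := by
          rw [← mul_assoc]
          congr 1
          rw [← Real.rpow_add_one' hc0]
          · congr 1; ring
          · have : 0 < 2 / q := by positivity
            linarith
  have h3 := Real.rpow_le_rpow (by positivity) h2 (by norm_num : (0 : ℝ) ≤ 1 / 2)
  rw [← Real.rpow_mul hs0, Real.mul_rpow (by positivity) hb, ← Real.rpow_mul hc0] at h3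
  have e3 : 2 / q * (1 / 2) = 1 / q := by field_simp
  rw [e3] at h3
  exact h3

/-- the local bound at one node `h₀` -/
theorem local_bound (t : Tree) (p q : ℝ) (hpq : p.HolderConjugate q) (hp : 2 ≤ p)
    (k k' : ℕ) (f : Sg k → Sg k')
    (hf : ∀ j j', j' ∈ t.B k j → f j' ∈ t.A k' (f j))
    (hfib : ∀ h, (Finset.univ.filter (fun j => f j = h)).card ≤ 4)
    (a : Sg k → (Sg k → Bool) → ℝ) (h0 : Sg k') :
    ∑ j ∈ Finset.univ.filter (fun j => f j ∈ t.A k' h0),
      |∑ j0 ∈ t.B k j, ∑ θ : Sg k → Bool, sgn (θ j) * a j0 θ| ≤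
    ((4 * t.m k' * 2 ^ (2 ^ k)) ^ (1 / q) * (t.b k : ℝ) ^ (1 / 2 : ℝ)) *
    (∑ j0 ∈ Finset.univ.filter (fun j => f j ∈ t.A k' h0),
      ∑ θ : Sg k → Bool, |a j0 θ| ^ p) ^ (1 / p) := by
  classical
  set T : Finset (Sg k) := Finset.univ.filter (fun j => f j ∈ t.A k' h0) with hT
  have hq0 : 0 < q := hpq.symm.pos
  have hq2 : q ≤ 2 := by
    have h1 := hpq.inv_add_inv_eq_one
    have hp0 : 0 < p := by linarith
    have h2 : p⁻¹ ≤ 2⁻¹ := inv_anti₀ (by norm_num) hp
    have h3 : (2 : ℝ)⁻¹ ≤ q⁻¹ := by norm_num at h2 ⊢; linarith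
    exact (inv_le_inv₀ (by norm_num) hq0).1 h3
  set β : Sg k → ℝ := fun j => ∑ j0 ∈ t.B k j, ∑ θ : Sg k → Bool, sgn (θ j) * a j0 θ with hβ
  set s : Sg k → ℝ := fun j => if 0 ≤ β j then 1 else -1 with hs
  have hs1 : ∀ j, |s j| ≤ 1 := by
    intro j
    simp only [hs]
    split_ifs <;> norm_num
  have habs : ∀ j, |β j| = s j * β j := by
    intro j
    simp only [hs]
    split_ifs with h
    · rw [abs_of_nonneg h, one_mul]
    · rw [abs_of_neg (not_le.1 h)]; ring
  have hTB : ∀ j j0, (j ∈ T ∧ j0 ∈ t.B k j) ↔ (j ∈ t.B k j0 ∧ j0 ∈ T) := by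
    have key : ∀ j j0, j ∈ T → j0 ∈ t.B k j → j0 ∈ T := by
      intro j j0 hj hj0
      rw [hT, Finset.mem_filter] at hj ⊢
      refine ⟨Finset.mem_univ _, ?_⟩
      have := hf j j0 hj0
      rwa [t.A_eq k' h0 (f j) hj.2] at this
    intro j j0
    constructor
    · rintro ⟨h1, h2⟩
      exact ⟨B_symm t k h2, key j j0 h1 h2⟩
    · rintro ⟨h1, h2⟩
      exact ⟨key j0 j h2 h1, B_symm t k h1⟩
  -- swap the sums
  have hswap : ∑ j ∈ T, |β j| = ∑ x ∈ T ×ˢ (Finset.univ : Finset (Sg k → Bool)),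
      a x.1 x.2 * ∑ j ∈ t.B k x.1, s j * sgn (x.2 j) := by
    rw [Finset.sum_product]
    calc ∑ j ∈ T, |β j| = ∑ j ∈ T, ∑ j0 ∈ t.B k j, ∑ θ : Sg k → Bool,
          s j * (sgn (θ j) * a j0 θ) := by
          refine Finset.sum_congr rfl fun j _ => ?_
          rw [habs j]
          simp only [hβ, Finset.mul_sum]
      _ = ∑ j0 ∈ T, ∑ j ∈ t.B k j0, ∑ θ : Sg k → Bool, s j * (sgn (θ j) * a j0 θ) :=
          Finset.sum_comm' hTB
      _ = ∑ j0 ∈ T, ∑ θ : Sg k → Bool, a j0 θ * ∑ j ∈ t.B k j0, s j * sgn (θ j) := by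
          refine Finset.sum_congr rfl fun j0 _ => ?_
          rw [Finset.sum_comm]
          refine Finset.sum_congr rfl fun θ _ => ?_
          rw [Finset.mul_sum]
          refine Finset.sum_congr rfl fun j _ => ?_
          ring
  have hcT : (T.card : ℝ) ≤ 4 * t.m k' := by
    have h1 : T.card ≤ 4 * (t.A k' h0).card := by
      refine Finset.card_le_mul_card_image_of_maps_to (f := f) ?_ 4 ?_
      · intro j hj
        rw [hT, Finset.mem_filter] at hj
        exact hj.2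
      · intro h _
        refine le_trans (Finset.card_le_card ?_) (hfib h)
        intro j hj
        rw [Finset.mem_filter] at hj ⊢
        exact ⟨Finset.mem_univ _, hj.2⟩
    rw [t.A_card] at h1
    exact_mod_cast h1
  rw [hswap]
  refine le_trans (Real.inner_le_Lp_mul_Lq _ _ _ hpq) ?_
  rw [mul_comm]
  refine mul_le_mul ?_ (le_of_eq ?_) (by positivity) (by positivity)
  · -- the `l_q` factor
    have hX : ∑ x ∈ T ×ˢ (Finset.univ : Finset (Sg k → Bool)),
        |∑ j ∈ t.B k x.1, s j * sgn (x.2 j)| ^ 2 ≤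
        ((T ×ˢ (Finset.univ : Finset (Sg k → Bool))).card : ℝ) * t.b k := by
      rw [Finset.sum_product]
      calc ∑ j0 ∈ T, ∑ θ : Sg k → Bool, |∑ j ∈ t.B k j0, s j * sgn (θ j)| ^ 2
          ≤ ∑ j0 ∈ T, 2 ^ Fintype.card (Sg k) * (t.b k : ℝ) := by
            refine Finset.sum_le_sum fun j0 _ => ?_
            have := sum_sq_sgn (t.B k j0) s hs1
            rwa [t.B_card] at this
        _ = _ := by
            rw [Finset.sum_const, nsmul_eq_mul, Finset.card_product]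
            simp
            ring
    refine le_trans (lq_le_l2 _ _ q (t.b k) hq0 hq2 (by positivity) hX) ?_
    refine mul_le_mul_of_nonneg_right ?_ (by positivity)
    refine Real.rpow_le_rpow (by positivity) ?_ (by positivity)
    rw [Finset.card_product]
    push_cast
    have : ((Finset.univ : Finset (Sg k → Bool)).card : ℝ) = 2 ^ (2 ^ k) := by
      simp
    rw [this]
    exact mul_le_mul_of_nonneg_right hcT (by positivity)
  · rw [Finset.sum_product]

theorem rel_bound (t : Tree) (p q r : ℝ) (hpq : p.HolderConjugate q) (hr : 2 ≤ r) (hrp : r ≤ p)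
    [Fact (1 ≤ ENNReal.ofReal r)] (k k' : ℕ) (f : Sg k → Sg k')
    (hf : ∀ j j', j' ∈ t.B k j → f j' ∈ t.A k' (f j))
    (hfib : ∀ h, (Finset.univ.filter (fun j => f j = h)).card ≤ 4)
    (a : Sg k → (Sg k → Bool) → ℝ) :
    ‖∑ j, (∑ j0 ∈ t.B k j, ∑ θ : Sg k → Bool, sgn (θ j) * a j0 θ) • eL t r k' (f j)‖ ≤
      (4 * t.m k' * 2 ^ (2 ^ k)) ^ (1 / q) * (t.b k : ℝ) ^ (1 / 2 : ℝ) *
      (2 ^ k' / t.m k') ^ (1 / r - 1 / p) *
      (∑ j0, ∑ θ : Sg k → Bool, |a j0 θ| ^ p) ^ (1 / p) := by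
  classical
  have hr0 : 0 < r := by linarith
  have hp0 : 0 < p := by linarith
  have hm := m_pos t k'
  set W : ℝ := (4 * t.m k' * 2 ^ (2 ^ k)) ^ (1 / q) * (t.b k : ℝ) ^ (1 / 2 : ℝ) with hW
  have hW0 : 0 ≤ W := by positivity
  set β : Sg k → ℝ := fun j => ∑ j0 ∈ t.B k j, ∑ θ : Sg k → Bool, sgn (θ j) * a j0 θ with hβ
  set x : Sg k' → ℝ := fun h0 => ∑ j0 ∈ Finset.univ.filter (fun j => f j ∈ t.A k' h0),
      ∑ θ : Sg k → Bool, |a j0 θ| ^ p with hx
  have hx0 : ∀ h0, 0 ≤ x h0 := fun h0 =>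
    Finset.sum_nonneg fun _ _ => Finset.sum_nonneg fun _ _ => by positivity
  set P : ℝ := ∑ j0, ∑ θ : Sg k → Bool, |a j0 θ| ^ p with hP
  have hP0 : 0 ≤ P := Finset.sum_nonneg fun _ _ => Finset.sum_nonneg fun _ _ => by positivity
  -- coordinates
  have hcoord : ∀ h0 : Sg k', ‖(∑ j, β j • eL t r k' (f j) : Lam r) ⟨k', h0⟩‖ ≤
      (t.m k' : ℝ) ^ (-(1 / r)) * (W * x h0 ^ (1 / p)) := by
    intro h0
    rw [coe_sum_lp]
    refine le_trans (norm_sum_le _ _) ?_
    have h1 : ∀ j ∈ (Finset.univ : Finset (Sg k)), ‖(β j • eL t r k' (f j) : Lam r) ⟨k', h0⟩‖ ≤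
        if f j ∈ t.A k' h0 then (t.m k' : ℝ) ^ (-(1 / r)) * |β j| else 0 := by
      intro j _
      have e1 : (β j • eL t r k' (f j) : Lam r) ⟨k', h0⟩ = β j • (eL t r k' (f j)) ⟨k', h0⟩ := rfl
      rw [e1, norm_smul, Real.norm_eq_abs]
      have h2 := norm_eL_coord t r k' (f j) h0
      by_cases hc : f j ∈ t.A k' h0
      · rw [if_pos (A_symm t k' hc)] at h2
        rw [if_pos hc, mul_comm]
        exact mul_le_mul_of_nonneg_right h2 (abs_nonneg _)
      · have hc' : ¬ h0 ∈ t.A k' (f j) := fun h => hc (A_symm t k' h)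
        rw [if_neg hc'] at h2
        rw [if_neg hc, le_antisymm h2 (norm_nonneg _), mul_zero]
    refine le_trans (Finset.sum_le_sum h1) ?_
    rw [← Finset.sum_filter, ← Finset.mul_sum]
    refine mul_le_mul_of_nonneg_left ?_ (by positivity)
    exact local_bound t p q hpq (by linarith) k k' f hf hfib a h0
  have hne : ∀ γ : Ix, γ.1 ≠ k' → (∑ j, β j • eL t r k' (f j) : Lam r) γ = 0 := by
    intro γ hγ
    rw [coe_sum_lp]
    refine Finset.sum_eq_zero fun j _ => ?_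
    have e1 : (β j • eL t r k' (f j) : Lam r) γ = β j • (eL t r k' (f j)) γ := rfl
    rw [e1, eL_coord_ne t r k' (f j) γ hγ, smul_zero]
  have hnorm := norm_level_le r (by linarith) k' _ _ hcoord hne
  -- sum over `h0`
  have hsumx : ∑ h0, x h0 = t.m k' * P := by
    simp only [hx, Finset.sum_filter]
    rw [Finset.sum_comm, hP, Finset.mul_sum]
    refine Finset.sum_congr rfl fun j0 _ => ?_
    rw [← Finset.sum_filter, Finset.sum_const, nsmul_eq_mul]
    congr 2
    rw [← t.A_card k' (f j0)]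
    congr 1
    ext h0
    simp only [Finset.mem_filter, Finset.mem_univ, true_and]
    exact ⟨fun h => A_symm t k' h, fun h => A_symm t k' h⟩
  have hhold : ∑ h0, x h0 ^ (r / p) ≤
      ((2 : ℝ) ^ k') ^ (1 - r / p) * (t.m k' * P) ^ (r / p) := by
    have h1 := Real.rpow_sum_le_const_mul_sum_rpow (Finset.univ : Finset (Sg k'))
      (fun h0 => x h0 ^ (r / p)) (p := p / r) (by rw [le_div_iff₀ hr0]; linarith)
    have e1 : ∀ h0, |x h0 ^ (r / p)| = x h0 ^ (r / p) := fun h0 =>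
      abs_of_nonneg (Real.rpow_nonneg (hx0 h0) _)
    have e2 : ∀ h0, (x h0 ^ (r / p)) ^ (p / r) = x h0 := by
      intro h0
      rw [← Real.rpow_mul (hx0 h0)]
      have : r / p * (p / r) = 1 := by field_simp
      rw [this, Real.rpow_one]
    simp only [e1, e2] at h1
    rw [hsumx] at h1
    have hcard : ((Finset.univ : Finset (Sg k')).card : ℝ) = 2 ^ k' := by simp
    rw [hcard] at h1
    have hS0 : 0 ≤ ∑ h0, x h0 ^ (r / p) := Finset.sum_nonneg fun h0 _ =>
      Real.rpow_nonneg (hx0 h0) _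
    have h2 := Real.rpow_le_rpow (by positivity) h1 (by positivity : 0 ≤ r / p)
    rw [← Real.rpow_mul hS0, Real.mul_rpow (by positivity) (by positivity),
      ← Real.rpow_mul (by positivity)] at h2
    have e3 : p / r * (r / p) = 1 := by field_simp
    have e4 : (p / r - 1) * (r / p) = 1 - r / p := by field_simp
    rw [e3, e4, Real.rpow_one] at h2
    exact h2
  -- conclusion
  have hRHS0 : 0 ≤ W * (2 ^ k' / t.m k') ^ (1 / r - 1 / p) * P ^ (1 / p) := by positivity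
  refine (Real.rpow_le_rpow_iff (norm_nonneg _) hRHS0 hr0).1 ?_
  refine le_trans hnorm ?_
  have e5 : ∀ h0, ((t.m k' : ℝ) ^ (-(1 / r)) * (W * x h0 ^ (1 / p))) ^ r =
      (t.m k' : ℝ)⁻¹ * W ^ r * x h0 ^ (r / p) := by
    intro h0
    rw [Real.mul_rpow (by positivity) (mul_nonneg hW0 (Real.rpow_nonneg (hx0 h0) _)),
      Real.mul_rpow hW0 (Real.rpow_nonneg (hx0 h0) _), ← Real.rpow_mul hm.le,
      ← Real.rpow_mul (hx0 h0)]
    have e6 : -(1 / r) * r = -1 := by field_simp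
    have e7 : 1 / p * r = r / p := by field_simp
    rw [e6, e7, Real.rpow_neg_one]
    ring
  rw [Finset.sum_congr rfl (fun h0 _ => e5 h0), ← Finset.mul_sum]
  have e8 : (W * (2 ^ k' / t.m k') ^ (1 / r - 1 / p) * P ^ (1 / p)) ^ r =
      W ^ r * (2 ^ k' / t.m k' : ℝ) ^ (1 - r / p) * P ^ (r / p) := by
    rw [Real.mul_rpow (by positivity) (by positivity), Real.mul_rpow hW0 (by positivity),
      ← Real.rpow_mul (by positivity), ← Real.rpow_mul hP0]
    have e9 : (1 / r - 1 / p) * r = 1 - r / p := by field_simp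
    have e10 : 1 / p * r = r / p := by field_simp
    rw [e9, e10]
  rw [e8]
  calc (t.m k' : ℝ)⁻¹ * W ^ r * ∑ h0, x h0 ^ (r / p)
      ≤ (t.m k' : ℝ)⁻¹ * W ^ r * (((2 : ℝ) ^ k') ^ (1 - r / p) * (t.m k' * P) ^ (r / p)) :=
        mul_le_mul_of_nonneg_left hhold (by positivity)
    _ = W ^ r * (2 ^ k' / t.m k' : ℝ) ^ (1 - r / p) * P ^ (r / p) := by
        rw [Real.mul_rpow hm.le hP0, Real.div_rpow (by positivity) hm.le]
        have e11 : (t.m k' : ℝ) ^ (1 - r / p) = t.m k' / (t.m k' : ℝ) ^ (r / p) := by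
          rw [Real.rpow_sub hm, Real.rpow_one]
        rw [e11]
        have h12 : (t.m k' : ℝ) ^ (r / p) ≠ 0 := by positivity
        field_simp

end Pool.Agent.Helper34.BAP
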