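import Pool.Agent.Helper34.BAP.EC

/-! Part ED of the second blueprint for MP_6f6997_an: the norm bound for the level operators. -/

open MeasureTheory
open scoped ENNReal NNReal

set_option maxSynthPendingDepth 3

namespace Pool.Agent.Helper34.BAP

open Pool.Agent.BAPp (sgn)
open Pool.Agent.Helper37.BP

/-- last sign of the parent -/
def c1 {n : ℕ} (j : Sg (n + 2)) : Bool := (pr j) (Fin.last n)

/-- last sign -/
def c2 {n : ℕ} (j : Sg (n + 2)) : Bool := j (Fin.last (n + 1))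

theorem ch_c2 {n : ℕ} (j : Sg (n + 2)) : ch (pr j) (c2 j) = j := ch_pr j

theorem ch_c1 {n : ℕ} (j : Sg (n + 2)) : ch (pr (pr j)) (c1 j) = pr j := ch_pr (pr j)

theorem fib_le {n k' : ℕ} (f : Sg (n + 2) → Sg k') (g : Sg k' → Sg n)
    (hg : ∀ j, g (f j) = pr (pr j)) (h : Sg k') :
    (Finset.univ.filter (fun j => f j = h)).card ≤ 4 := by
  classical
  have h1 : (Finset.univ.filter (fun j => f j = h)).card ≤
      (Finset.univ : Finset (Bool × Bool)).card := by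
    refine Finset.card_le_card_of_injOn (fun j => (c1 j, c2 j)) (fun _ _ => Finset.mem_coe.2
      (Finset.mem_univ _)) ?_
    intro j hj j' hj' he
    simp only [Finset.coe_filter, Finset.mem_univ, true_and, Set.mem_ofPred_eq] at hj hj'
    simp only [Prod.mk.injEq] at he
    have e1 : pr (pr j) = pr (pr j') := by rw [← hg, ← hg, hj, hj']
    rw [← ch_c2 j, ← ch_c2 j', ← ch_c1 j, ← ch_c1 j', e1, he.1, he.2]
  simpa using h1

theorem relj (t : Tree) (n : ℕ) (j j' : Sg (n + 2)) (hj : j' ∈ t.B (n + 2) j) :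
    c1 j' = c1 j ∧ c2 j' = c2 j ∧
    (∀ c, ch (pr (pr j')) c ∈ t.A (n + 1) (ch (pr (pr j)) c)) ∧
    (∀ c c', ¬ (c = c1 j ∧ c' = c2 j) →
      ch (ch (pr (pr j')) c) c' ∈ t.A (n + 2) (ch (ch (pr (pr j)) c) c')) ∧
    (∀ c c', ch (ch (pr j') c) c' ∈ t.A (n + 3) (ch (ch (pr j) c) c')) := by
  have h1 : ch (ch (pr (pr j')) (c1 j')) (c2 j') ∈
      t.B (n + 2) (ch (ch (pr (pr j)) (c1 j)) (c2 j)) := by
    rw [ch_c1, ch_c1, ch_c2, ch_c2]; exact hj
  have h := t.rel n (pr (pr j)) (pr (pr j')) (c1 j) (c2 j) (c1 j') (c2 j') h1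
  refine ⟨h.1, h.2.1, h.2.2.1, h.2.2.2.1, ?_⟩
  intro c c'
  have h2 := h.2.2.2.2 c c'
  have e1 : ch (pr (pr j')) (c1 j) = pr j' := by rw [← h.1]; exact ch_c1 j'
  rw [e1, ch_c1] at h2
  exact h2

theorem yL_eq (t : Tree) (r : ℝ) (n : ℕ) (j : Sg (n + 2)) :
    yL t r n j = -eL t r (n + 1) (ch (pr (pr j)) true) + eL t r (n + 1) (ch (pr (pr j)) false)
      - (2 : ℝ) • eL t r (n + 2) (ch (pr j) (!c2 j))
      - eL t r (n + 2) (ch (ch (pr (pr j)) (!c1 j)) true)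
      - eL t r (n + 2) (ch (ch (pr (pr j)) (!c1 j)) false)
      + sgn (c2 j) • eL t r (n + 3) (ch (ch (pr j) true) true)
      + sgn (c2 j) • eL t r (n + 3) (ch (ch (pr j) true) false)
      + sgn (c2 j) • eL t r (n + 3) (ch (ch (pr j) false) true)
      + sgn (c2 j) • eL t r (n + 3) (ch (ch (pr j) false) false) := by
  have e0 : yL t r n j = sgn (c2 j) • (∑ c, sgn c • eL t r (n + 2) (ch (pr j) c) +
      ∑ c, ∑ c', eL t r (n + 3) (ch (ch (pr j) c) c')) -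
      (∑ c, sgn c • eL t r (n + 1) (ch (pr (pr j)) c) +
        ∑ c, ∑ c', eL t r (n + 2) (ch (ch (pr (pr j)) c) c')) := rfl
  rw [e0]
  simp only [Fintype.sum_bool]
  have e1 : ch (ch (pr (pr j)) (c1 j)) true = ch (pr j) true := by rw [ch_c1]
  have e2 : ch (ch (pr (pr j)) (c1 j)) false = ch (pr j) false := by rw [ch_c1]
  cases h1 : c1 j <;> cases h2 : c2 j <;> rw [h1] at e1 e2 <;>
    simp only [h1, h2, sgn, Bool.not_true, Bool.not_false, if_true, e1, e2] <;>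
    simp only [Bool.false_eq_true, if_false, if_true] <;> module

theorem rel_bound' (t : Tree) (p q r : ℝ) (hpq : p.HolderConjugate q) (hr : 2 ≤ r) (hrp : r ≤ p)
    [Fact (1 ≤ ENNReal.ofReal r)] (k k' : ℕ) (f : Sg k → Sg k')
    (hf : ∀ j j', j' ∈ t.B k j → f j' ∈ t.A k' (f j))
    (hfib : ∀ h, (Finset.univ.filter (fun j => f j = h)).card ≤ 4)
    (a : Sg k → (Sg k → Bool) → ℝ)
    (h1 : (t.m k' : ℝ) ≤ 2 ^ 11 * t.m k)
    (h2 : (2 : ℝ) ^ k' * t.m k ≤ 2 ^ 10 * (2 ^ k * t.m k')) :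
    ‖∑ j, (∑ j0 ∈ t.B k j, ∑ θ : Sg k → Bool, sgn (θ j) * a j0 θ) • eL t r k' (f j)‖ ≤
      2 ^ 23 * ((t.m k * 2 ^ (2 ^ k)) ^ (1 / q) * (t.b k : ℝ) ^ (1 / 2 : ℝ) *
      (2 ^ k / t.m k) ^ (1 / r - 1 / p) *
      (∑ j0, ∑ θ : Sg k → Bool, |a j0 θ| ^ p) ^ (1 / p)) := by
  refine le_trans (rel_bound t p q r hpq hr hrp k k' f hf hfib a) ?_
  have hm := m_pos t k
  have hm' := m_pos t k'
  have hr0 : 0 < r := by linarith
  have hp0 : 0 < p := by linarith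
  have hq1 : 1 ≤ q := hpq.symm.lt.le
  have e1 : (4 * t.m k' * 2 ^ (2 ^ k) : ℝ) ^ (1 / q) ≤
      2 ^ 13 * (t.m k * 2 ^ (2 ^ k) : ℝ) ^ (1 / q) := by
    calc (4 * t.m k' * 2 ^ (2 ^ k) : ℝ) ^ (1 / q)
        ≤ (2 ^ 13 * (t.m k * 2 ^ (2 ^ k)) : ℝ) ^ (1 / q) := by
          refine Real.rpow_le_rpow (by positivity) ?_ (by positivity)
          have : (4 * t.m k' : ℝ) ≤ 2 ^ 13 * t.m k := by linarith
          calc (4 * t.m k' * 2 ^ (2 ^ k) : ℝ) ≤ 2 ^ 13 * t.m k * 2 ^ (2 ^ k) :=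
                mul_le_mul_of_nonneg_right this (by positivity)
            _ = _ := by ring
      _ = (2 ^ 13 : ℝ) ^ (1 / q) * (t.m k * 2 ^ (2 ^ k) : ℝ) ^ (1 / q) :=
          Real.mul_rpow (by positivity) (by positivity)
      _ ≤ _ := by
          refine mul_le_mul_of_nonneg_right ?_ (by positivity)
          calc (2 ^ 13 : ℝ) ^ (1 / q) ≤ (2 ^ 13 : ℝ) ^ (1 : ℝ) :=
                Real.rpow_le_rpow_of_exponent_le (by norm_num) (by
                  rw [div_le_one (by linarith)]; exact hq1)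
            _ = 2 ^ 13 := Real.rpow_one _
  have he0 : 0 ≤ 1 / r - 1 / p := by
    rw [sub_nonneg]
    exact one_div_le_one_div_of_le hr0 hrp
  have he1 : 1 / r - 1 / p ≤ 1 := by
    have h3 : 1 / r ≤ 1 := by rw [div_le_one hr0]; linarith
    have h4 : 0 < 1 / p := by positivity
    linarith
  have e2 : (2 ^ k' / t.m k' : ℝ) ^ (1 / r - 1 / p) ≤
      2 ^ 10 * (2 ^ k / t.m k : ℝ) ^ (1 / r - 1 / p) := by
    calc (2 ^ k' / t.m k' : ℝ) ^ (1 / r - 1 / p)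
        ≤ (2 ^ 10 * (2 ^ k / t.m k) : ℝ) ^ (1 / r - 1 / p) := by
          refine Real.rpow_le_rpow (by positivity) ?_ he0
          rw [← mul_div_assoc, div_le_div_iff₀ hm' hm]
          linarith
      _ = (2 ^ 10 : ℝ) ^ (1 / r - 1 / p) * (2 ^ k / t.m k : ℝ) ^ (1 / r - 1 / p) :=
          Real.mul_rpow (by positivity) (by positivity)
      _ ≤ _ := by
          refine mul_le_mul_of_nonneg_right ?_ (by positivity)
          calc (2 ^ 10 : ℝ) ^ (1 / r - 1 / p) ≤ (2 ^ 10 : ℝ) ^ (1 : ℝ) :=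
                Real.rpow_le_rpow_of_exponent_le (by norm_num) he1
            _ = 2 ^ 10 := Real.rpow_one _
  set P : ℝ := (∑ j0, ∑ θ : Sg k → Bool, |a j0 θ| ^ p) ^ (1 / p) with hP
  have hP0 : 0 ≤ P := Real.rpow_nonneg (Finset.sum_nonneg fun _ _ =>
    Finset.sum_nonneg fun _ _ => by positivity) _
  calc (4 * t.m k' * 2 ^ (2 ^ k) : ℝ) ^ (1 / q) * (t.b k : ℝ) ^ (1 / 2 : ℝ) *
      (2 ^ k' / t.m k') ^ (1 / r - 1 / p) * P
      ≤ (2 ^ 13 * (t.m k * 2 ^ (2 ^ k) : ℝ) ^ (1 / q)) * (t.b k : ℝ) ^ (1 / 2 : ℝ) *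
      (2 ^ 10 * (2 ^ k / t.m k : ℝ) ^ (1 / r - 1 / p)) * P := by gcongr
    _ = _ := by ring

theorem yL_bound (t : Tree) (p q r : ℝ) (hpq : p.HolderConjugate q) (hr : 2 ≤ r) (hrp : r ≤ p)
    [Fact (1 ≤ ENNReal.ofReal r)] (n : ℕ) (a : Sg (n + 2) → (Sg (n + 2) → Bool) → ℝ) :
    ‖∑ j0, ∑ θ : Sg (n + 2) → Bool, a j0 θ • ∑ j ∈ t.B (n + 2) j0, sgn (θ j) • yL t r n j‖ ≤
      2 ^ 30 * (t.m (n + 2) * 2 ^ (2 ^ (n + 2))) ^ (1 / q) * (t.b (n + 2) : ℝ) ^ (1 / 2 : ℝ) *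
      (2 ^ (n + 2) / t.m (n + 2)) ^ (1 / r - 1 / p) *
      (∑ j0, ∑ θ : Sg (n + 2) → Bool, |a j0 θ| ^ p) ^ (1 / p) := by
  classical
  set β : Sg (n + 2) → ℝ := fun j => ∑ j0 ∈ t.B (n + 2) j, ∑ θ : Sg (n + 2) → Bool,
    sgn (θ j) * a j0 θ with hβ
  have hF : ∑ j0, ∑ θ : Sg (n + 2) → Bool,
      a j0 θ • ∑ j ∈ t.B (n + 2) j0, sgn (θ j) • yL t r n j = ∑ j, β j • yL t r n j := by
    calc ∑ j0, ∑ θ : Sg (n + 2) → Bool,
        a j0 θ • ∑ j ∈ t.B (n + 2) j0, sgn (θ j) • yL t r n j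
        = ∑ j0, ∑ j ∈ t.B (n + 2) j0, ∑ θ : Sg (n + 2) → Bool,
          (sgn (θ j) * a j0 θ) • yL t r n j := by
          refine Finset.sum_congr rfl fun j0 _ => ?_
          rw [Finset.sum_comm]
          refine Finset.sum_congr rfl fun θ _ => ?_
          rw [Finset.smul_sum]
          refine Finset.sum_congr rfl fun j _ => ?_
          rw [smul_smul, mul_comm]
      _ = ∑ j, ∑ j0 ∈ t.B (n + 2) j, ∑ θ : Sg (n + 2) → Bool,
          (sgn (θ j) * a j0 θ) • yL t r n j := by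
          refine Finset.sum_comm' ?_
          intro x y
          simp only [Finset.mem_univ, true_and, and_true]
          exact ⟨fun h => B_symm t _ h, fun h => B_symm t _ h⟩
      _ = ∑ j, β j • yL t r n j := by
          refine Finset.sum_congr rfl fun j _ => ?_
          simp only [hβ, Finset.sum_smul]
  rw [hF]
  set M : ℝ := (t.m (n + 2) * 2 ^ (2 ^ (n + 2))) ^ (1 / q) * (t.b (n + 2) : ℝ) ^ (1 / 2 : ℝ) *
      (2 ^ (n + 2) / t.m (n + 2)) ^ (1 / r - 1 / p) *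
      (∑ j0, ∑ θ : Sg (n + 2) → Bool, |a j0 θ| ^ p) ^ (1 / p) with hM
  have hM0 : 0 ≤ M := by
    have : 0 ≤ (∑ j0, ∑ θ : Sg (n + 2) → Bool, |a j0 θ| ^ p) ^ (1 / p) :=
      Real.rpow_nonneg (Finset.sum_nonneg fun _ _ => Finset.sum_nonneg fun _ _ => by positivity) _
    positivity
  -- size comparisons
  have hm0 : (t.m (n + 1) : ℝ) ≤ t.m (n + 2) := by exact_mod_cast t.m_mono (n + 1)
  have hm1 : (t.m (n + 2) : ℝ) ≤ 2 ^ 11 * t.m (n + 1) := by exact_mod_cast t.m_le (n + 1)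
  have hm2 : (t.m (n + 2) : ℝ) ≤ t.m (n + 3) := by exact_mod_cast t.m_mono (n + 2)
  have hm3 : (t.m (n + 3) : ℝ) ≤ 2 ^ 11 * t.m (n + 2) := by exact_mod_cast t.m_le (n + 2)
  have hmp := m_pos t (n + 2)
  have hmp1 := m_pos t (n + 1)
  have hmp3 := m_pos t (n + 3)
  -- relations
  have G1 : ∀ c : Bool, ‖∑ j, β j • eL t r (n + 1) (ch (pr (pr j)) c)‖ ≤ 2 ^ 23 * M := by
    intro c
    refine rel_bound' t p q r hpq hr hrp (n + 2) (n + 1) (fun j => ch (pr (pr j)) c) ?_ ?_ a ?_ ?_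
    · intro j j' hj
      exact (relj t n j j' hj).2.2.1 c
    · refine fib_le _ (fun h => pr h) ?_
      intro j; simp
    · linarith
    · have : (2 : ℝ) ^ (n + 2) = 2 ^ (n + 1) * 2 := pow_succ _ _
      rw [this]
      nlinarith [pow_pos (by norm_num : (0 : ℝ) < 2) (n + 1)]
  have G2 : ‖∑ j, β j • eL t r (n + 2) (ch (pr j) (!c2 j))‖ ≤ 2 ^ 23 * M := by
    refine rel_bound' t p q r hpq hr hrp (n + 2) (n + 2) (fun j => ch (pr j) (!c2 j)) ?_ ?_ a ?_ ?_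
    · intro j j' hj
      have h := relj t n j j' hj
      have h1 := h.2.2.2.1 (c1 j) (!c2 j) (by simp)
      have e1 : ch (pr (pr j')) (c1 j) = pr j' := by rw [← h.1]; exact ch_c1 j'
      rw [e1, ch_c1] at h1
      change ch (pr j') (!c2 j') ∈ t.A (n + 2) (ch (pr j) (!c2 j))
      rw [h.2.1]
      exact h1
    · refine fib_le _ (fun h => pr (pr h)) ?_
      intro j; simp
    · linarith
    · nlinarith [mul_pos (pow_pos (by norm_num : (0 : ℝ) < 2) (n + 2)) hmp]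
  have G3 : ∀ c : Bool, ‖∑ j, β j • eL t r (n + 2) (ch (ch (pr (pr j)) (!c1 j)) c)‖ ≤
      2 ^ 23 * M := by
    intro c
    refine rel_bound' t p q r hpq hr hrp (n + 2) (n + 2)
      (fun j => ch (ch (pr (pr j)) (!c1 j)) c) ?_ ?_ a ?_ ?_
    · intro j j' hj
      have h := relj t n j j' hj
      have h1 := h.2.2.2.1 (!c1 j) c (by simp)
      change ch (ch (pr (pr j')) (!c1 j')) c ∈ t.A (n + 2) (ch (ch (pr (pr j)) (!c1 j)) c)
      rw [h.1]
      exact h1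
    · refine fib_le _ (fun h => pr (pr h)) ?_
      intro j; simp
    · linarith
    · nlinarith [mul_pos (pow_pos (by norm_num : (0 : ℝ) < 2) (n + 2)) hmp]
  have G4 : ∀ c c' : Bool, ‖∑ j, (β j * sgn (c2 j)) • eL t r (n + 3) (ch (ch (pr j) c) c')‖ ≤
      2 ^ 23 * M := by
    intro c c'
    have h := rel_bound' t p q r hpq hr hrp (n + 2) (n + 3) (fun j => ch (ch (pr j) c) c') ?_ ?_
      (fun j0 θ => sgn (c2 j0) * a j0 θ) ?_ ?_
    · have e1 : ∀ j, ∑ j0 ∈ t.B (n + 2) j, ∑ θ : Sg (n + 2) → Bool,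
          sgn (θ j) * (sgn (c2 j0) * a j0 θ) = β j * sgn (c2 j) := by
        intro j
        simp only [hβ]
        rw [Finset.sum_mul]
        refine Finset.sum_congr rfl fun j0 hj0 => ?_
        rw [Finset.sum_mul]
        refine Finset.sum_congr rfl fun θ _ => ?_
        rw [(relj t n j j0 hj0).2.1]
        ring
      have e2 : ∀ (j0 : Sg (n + 2)) (θ : Sg (n + 2) → Bool),
          |sgn (c2 j0) * a j0 θ| = |a j0 θ| := by
        intro j0 θ
        rw [abs_mul, abs_sgn, one_mul]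
      simp only [e1, e2] at h
      exact h
    · intro j j' hj
      exact (relj t n j j' hj).2.2.2.2 c c'
    · refine fib_le _ (fun h => pr (pr (pr h))) ?_
      intro j; simp
    · linarith
    · have : (2 : ℝ) ^ (n + 3) = 2 ^ (n + 2) * 2 := pow_succ _ _
      rw [this]
      nlinarith [pow_pos (by norm_num : (0 : ℝ) < 2) (n + 2)]
  -- the decomposition
  have hdec : ∑ j, β j • yL t r n j =
      -(∑ j, β j • eL t r (n + 1) (ch (pr (pr j)) true))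
      + ∑ j, β j • eL t r (n + 1) (ch (pr (pr j)) false)
      - (2 : ℝ) • ∑ j, β j • eL t r (n + 2) (ch (pr j) (!c2 j))
      - ∑ j, β j • eL t r (n + 2) (ch (ch (pr (pr j)) (!c1 j)) true)
      - ∑ j, β j • eL t r (n + 2) (ch (ch (pr (pr j)) (!c1 j)) false)
      + ∑ j, (β j * sgn (c2 j)) • eL t r (n + 3) (ch (ch (pr j) true) true)
      + ∑ j, (β j * sgn (c2 j)) • eL t r (n + 3) (ch (ch (pr j) true) false)
      + ∑ j, (β j * sgn (c2 j)) • eL t r (n + 3) (ch (ch (pr j) false) true)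
      + ∑ j, (β j * sgn (c2 j)) • eL t r (n + 3) (ch (ch (pr j) false) false) := by
    rw [Finset.smul_sum, ← Finset.sum_neg_distrib, ← Finset.sum_add_distrib,
      ← Finset.sum_sub_distrib, ← Finset.sum_sub_distrib, ← Finset.sum_sub_distrib,
      ← Finset.sum_add_distrib, ← Finset.sum_add_distrib, ← Finset.sum_add_distrib,
      ← Finset.sum_add_distrib]
    refine Finset.sum_congr rfl fun j _ => ?_
    rw [yL_eq]
    module
  have hK0 : 0 ≤ 2 ^ 23 * M := by positivity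
  rw [hdec]
  have hgoal : (2 : ℝ) ^ 30 * (t.m (n + 2) * 2 ^ (2 ^ (n + 2))) ^ (1 / q) *
      (t.b (n + 2) : ℝ) ^ (1 / 2 : ℝ) * (2 ^ (n + 2) / t.m (n + 2)) ^ (1 / r - 1 / p) *
      (∑ j0, ∑ θ : Sg (n + 2) → Bool, |a j0 θ| ^ p) ^ (1 / p) = 2 ^ 30 * M := by
    rw [hM]; ring
  rw [hgoal]
  have hn2 : ‖(2 : ℝ) • ∑ j, β j • eL t r (n + 2) (ch (pr j) (!c2 j))‖ ≤ 2 * (2 ^ 23 * M) := by
    rw [norm_smul, Real.norm_eq_abs, abs_of_pos (by norm_num : (0 : ℝ) < 2)]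
    exact mul_le_mul_of_nonneg_left G2 (by norm_num)
  refine le_trans (norm_add_le_of_le (norm_add_le_of_le (norm_add_le_of_le (norm_add_le_of_le
    (norm_sub_le_of_le (norm_sub_le_of_le (norm_sub_le_of_le (norm_add_le_of_le
      ((norm_neg _).le.trans (G1 true)) (G1 false)) hn2) (G3 true)) (G3 false)) (G4 true true))
      (G4 true false)) (G4 false true)) (G4 false false)) ?_
  nlinarith

end Pool.Agent.Helper34.BAP
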